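import Mathlib

/-! A semisimple Hopf algebra `H` for which `H_par` is not semisimple. -/

set_option autoImplicit false

namespace Pool.Agent.Results.MP_57c94c_al.NotSemisimple

open TensorProduct Coalgebra

section defs
variable (k H : Type) [Field k] [Ring H] [HopfAlgebra k H]

/-- `t₍₁₎ ⊗ t₍₂₎ ↦ f(t₍₁₎) g(t₍₂₎)`. -/
noncomputable def mm {k H B : Type} [Field k] [Ring H] [Algebra k H] [Ring B] [Algebra k B]
    (f g : H →ₗ[k] B) : H ⊗[k] H →ₗ[k] B := LinearMap.mul' k B ∘ₗ TensorProduct.map f g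

/-- The three families of defining relations of `H_par` inside the tensor algebra. -/
inductive Rel : TensorAlgebra k H → TensorAlgebra k H → Prop
  | one : Rel (TensorAlgebra.ι k (1 : H)) 1
  | left (h c : H) : Rel
      (TensorAlgebra.ι k h * mm (TensorAlgebra.ι k) (TensorAlgebra.ι k ∘ₗ HopfAlgebra.antipode k)
        (comul c))
      (mm (TensorAlgebra.ι k ∘ₗ LinearMap.mulLeft k h) (TensorAlgebra.ι k ∘ₗ HopfAlgebra.antipode k)
        (comul c))
  | right (h c : H) : Rel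
      (mm (TensorAlgebra.ι k) (TensorAlgebra.ι k ∘ₗ HopfAlgebra.antipode k) (comul h) *
        TensorAlgebra.ι k c)
      (mm (TensorAlgebra.ι k) (TensorAlgebra.ι k ∘ₗ LinearMap.mulRight k c ∘ₗ HopfAlgebra.antipode k)
        (comul h))

/-- The algebra `H_par = T(H) / I`. -/
abbrev Hpar : Type := RingQuot (Rel k H)

end defs

section dil
variable {k H C : Type} [Field k] [Ring H] [HopfAlgebra k H] [Ring C] [Algebra k C]

@[simp] lemma mm_tmul {B : Type} [Ring B] [Algebra k B] (f g : H →ₗ[k] B) (x y : H) :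
    mm f g (x ⊗ₜ y) = f x * g y := by simp [mm]

lemma map_mm {B : Type} [Ring B] [Algebra k B] (F : B →ₐ[k] C) (f g : H →ₗ[k] B) (t : H ⊗[k] H) :
    F (mm f g t) = mm (F.toLinearMap ∘ₗ f) (F.toLinearMap ∘ₗ g) t := by
  induction t with
  | zero => simp
  | add x y hx hy => simp only [map_add, hx, hy]
  | tmul x y => simp

variable (ρ : H →ₐ[k] C) (χ : H →ₐ[k] k) (e : C)

noncomputable def pi : H →ₗ[k] C where
  toFun h := e * ρ h * e + χ h • (1 - e)
  map_add' x y := by simp only [map_add, mul_add, add_mul, add_smul]; abel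
  map_smul' c x := by simp [smul_smul]

noncomputable def Th : H ⊗[k] H →ₗ[k] C :=
  mm (LinearMap.mulRight k e ∘ₗ ρ.toLinearMap) (ρ.toLinearMap ∘ₗ HopfAlgebra.antipode k)

noncomputable def ka : H ⊗[k] H →ₗ[k] k :=
  mm χ.toLinearMap (χ.toLinearMap ∘ₗ HopfAlgebra.antipode k)

variable {e}

lemma pp (he : e * e = e) (a b : C) (s t : k) :
    (e * a * e + s • (1 - e)) * (e * b * e + t • (1 - e)) =
      e * (a * e * b) * e + (s * t) • (1 - e) := by
  have h1 : ∀ x : C, x * e * (1 - e) = 0 := fun x => by rw [mul_assoc, mul_sub, he]; simp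
  have h2 : ∀ x : C, (1 - e) * (e * x * e) = 0 := fun x => by
    rw [mul_assoc e, ← mul_assoc, sub_mul, he]; simp
  have h3 : (1 - e) * (1 - e) = 1 - e := by rw [mul_sub, sub_mul 1 e e, he]; simp
  have h4 : e * a * e * (e * b * e) = e * (a * e * b) * e := by
    simp only [← mul_assoc]; rw [mul_assoc (e * a) e e, he]
  simp only [add_mul, mul_add, smul_mul_assoc, mul_smul_comm, h1, h2, h3, h4, smul_zero, add_zero,
    zero_add, smul_smul, mul_comm s t]

lemma m0 (he : e * e = e) (t : H ⊗[k] H) :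
    mm (pi ρ χ e) (pi ρ χ e ∘ₗ HopfAlgebra.antipode k) t =
      e * Th ρ e t * e + ka χ t • (1 - e) := by
  induction t with
  | zero => simp
  | add x y hx hy => simp only [map_add, hx, hy, mul_add, add_mul, add_smul]; abel
  | tmul x y => simp [pi, pp he, Th, ka]

lemma m1 (he : e * e = e) (h : H) (t : H ⊗[k] H) :
    mm (pi ρ χ e ∘ₗ LinearMap.mulLeft k h) (pi ρ χ e ∘ₗ HopfAlgebra.antipode k) t =
      e * (ρ h * Th ρ e t) * e + (χ h * ka χ t) • (1 - e) := by
  induction t with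
  | zero => simp
  | add x y hx hy => simp only [map_add, hx, hy, mul_add, add_mul, add_smul]; abel
  | tmul x y =>
    simp only [mm_tmul, LinearMap.comp_apply, pi, LinearMap.coe_mk, AddHom.coe_mk, pp he, Th, ka]
    simp [mul_assoc]

lemma m2 (he : e * e = e) (h : H) (t : H ⊗[k] H) :
    mm (pi ρ χ e) (pi ρ χ e ∘ₗ LinearMap.mulRight k h ∘ₗ HopfAlgebra.antipode k) t =
      e * (Th ρ e t * ρ h) * e + (ka χ t * χ h) • (1 - e) := by
  induction t with
  | zero => simp
  | add x y hx hy => simp only [map_add, hx, hy, mul_add, add_mul, add_smul]; abel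
  | tmul x y =>
    simp only [mm_tmul, LinearMap.comp_apply, pi, LinearMap.coe_mk, AddHom.coe_mk, pp he, Th, ka]
    simp [mul_assoc]

lemma exists_hom (he : e * e = e) (hc : ∀ c : H, e * Th ρ e (comul c) = Th ρ e (comul c) * e) :
    ∃ Ψ : Hpar k H →ₐ[k] C, (∀ h : H, ∃ a, Ψ a = pi ρ χ e h) ∧
      ∀ D : Subalgebra k C, (∀ h, pi ρ χ e h ∈ D) → ∀ a, Ψ a ∈ D := by
  have hl : ∀ f : H →ₗ[k] H, (TensorAlgebra.lift k (pi ρ χ e)).toLinearMap ∘ₗ
      (TensorAlgebra.ι k ∘ₗ f) = pi ρ χ e ∘ₗ f := fun f => by ext; simp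
  have hl0 : (TensorAlgebra.lift k (pi ρ χ e)).toLinearMap ∘ₗ TensorAlgebra.ι k = pi ρ χ e := by
    ext; simp
  refine ⟨RingQuot.liftAlgHom k ⟨TensorAlgebra.lift k (pi ρ χ e), ?_⟩, fun h =>
    ⟨RingQuot.mkAlgHom k _ (TensorAlgebra.ι k h), by
      rw [RingQuot.liftAlgHom_mkAlgHom_apply, TensorAlgebra.lift_ι_apply]⟩, fun D hD a => ?_⟩
  · rintro _ _ (_ | ⟨h, c⟩ | ⟨h, c⟩)
    · simp [pi, he]
    · rw [map_mul, map_mm, map_mm, hl, hl, hl0, m0 ρ χ he, m1 ρ χ he, TensorAlgebra.lift_ι_apply]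
      change (e * ρ h * e + χ h • (1 - e)) * _ = _
      rw [pp he, mul_assoc (ρ h) e, hc]
      simp only [mul_assoc, he]
    · rw [map_mul, map_mm, map_mm, hl, hl, hl0, m0 ρ χ he, m2 ρ χ he, TensorAlgebra.lift_ι_apply]
      change _ * (e * ρ c * e + χ c • (1 - e)) = _
      rw [pp he, ← hc]
      simp only [← mul_assoc, he]
  · obtain ⟨p, rfl⟩ := RingQuot.mkAlgHom_surjective k _ a
    rw [RingQuot.liftAlgHom_mkAlgHom_apply]
    induction p using TensorAlgebra.induction with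
    | algebraMap r => rw [AlgHom.commutes]; exact D.algebraMap_mem r
    | ι x => simpa using hD x
    | mul a b ha hb => rw [map_mul]; exact mul_mem ha hb
    | add a b ha hb => rw [map_add]; exact add_mem ha hb

end dil

section fn
variable (k G : Type) [Field k] [Group G] [Fintype G] [DecidableEq G]

/-- functions on a finite group -/
def Fn : Type := G → k

instance : CommRing (Fn k G) := inferInstanceAs (CommRing (G → k))
instance : Algebra k (Fn k G) := inferInstanceAs (Algebra k (G → k))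

variable {k G}

def dl (x : G) : Fn k G := (Pi.single x 1 : G → k)

def ev (x : G) : Fn k G →ₐ[k] k := Pi.evalAlgHom k (fun _ : G => k) x

omit [Group G] [Fintype G] in
@[simp] lemma ev_dl (x y : G) : ev x (dl y : Fn k G) = if x = y then 1 else 0 :=
  Pi.single_apply y 1 x

omit [Group G] [Fintype G] [DecidableEq G] in
lemma fext {f g : Fn k G} (h : ∀ x, ev x f = ev x g) : f = g := funext h

omit [Group G] in
lemma sum_dl (f : Fn k G) : ∑ x, ev x f • dl x = f := fext fun y => by simp [map_sum]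

omit [Group G] [Fintype G] in
lemma dl_mul (x y : G) : (dl x * dl y : Fn k G) = if x = y then dl x else 0 := fext fun z => by
  by_cases h : x = y <;> by_cases h' : z = x <;> simp_all

omit [Group G] in
lemma lext {M : Type} [AddCommGroup M] [Module k M] {p q : Fn k G →ₗ[k] M}
    (h : ∀ x, p (dl x) = q (dl x)) : p = q := by
  ext f; rw [← sum_dl f]; simp [map_sum, h]

noncomputable def Dl : Fn k G →ₗ[k] Fn k G ⊗[k] Fn k G where
  toFun f := ∑ x, ∑ y, ev (x * y) f • (dl x ⊗ₜ[k] dl y)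
  map_add' f g := by simp [add_smul, Finset.sum_add_distrib]
  map_smul' c f := by simp [Finset.smul_sum, smul_smul]

lemma Dl_dl (g : G) : Dl (dl g : Fn k G) = ∑ x, dl x ⊗ₜ[k] dl (x⁻¹ * g) := by
  change ∑ x, ∑ y, ev (x * y) (dl g) • (dl x ⊗ₜ[k] dl y) = _
  refine Finset.sum_congr rfl fun x _ => ?_
  simp [← eq_inv_mul_iff_mul_eq]

omit [Group G] in
lemma sum_dl1 : ∑ x, (dl x : Fn k G) = 1 := by simpa using sum_dl (1 : Fn k G)

noncomputable def D : Fn k G →ₐ[k] Fn k G ⊗[k] Fn k G := AlgHom.ofLinearMap Dl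
  (by
    change ∑ x, ∑ y, ev (x * y) (1 : Fn k G) • (dl x ⊗ₜ[k] dl y) = _
    simp only [map_one, one_smul, ← tmul_sum, ← sum_tmul, sum_dl1]; rfl)
  (by
    intro f g
    change ∑ x, ∑ y, ev (x * y) (f * g) • (dl x ⊗ₜ[k] dl y) =
      (∑ x, ∑ y, ev (x * y) f • (dl x ⊗ₜ[k] dl y)) * ∑ x, ∑ y, ev (x * y) g • (dl x ⊗ₜ[k] dl y)
    simp only [Finset.sum_mul, Finset.mul_sum, smul_mul_assoc, mul_smul_comm,
      Algebra.TensorProduct.tmul_mul_tmul, dl_mul, ite_tmul, tmul_ite, smul_ite, smul_zero,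
      Finset.sum_ite_eq', Finset.mem_univ, if_true, map_mul, smul_smul, mul_comm (ev _ f)])

lemma D_dl (g : G) : D (dl g : Fn k G) = ∑ x, dl x ⊗ₜ[k] dl (x⁻¹ * g) := Dl_dl g

noncomputable instance : Bialgebra k (Fn k G) := Bialgebra.ofAlgHom D (ev 1)
  (AlgHom.toLinearMap_injective (lext fun g => by
    simp only [AlgHom.toLinearMap_apply, AlgHom.comp_apply, D_dl, map_sum,
      Algebra.TensorProduct.map_tmul, AlgHom.id_apply, sum_tmul, tmul_sum]
    rw [Finset.sum_comm]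
    refine Finset.sum_congr rfl fun x _ => ?_
    rw [← Equiv.sum_comp (Equiv.mulLeft x)]
    simp [mul_assoc]))
  (AlgHom.toLinearMap_injective (lext fun g => by
    simp [D_dl, map_sum, ite_tmul]))
  (AlgHom.toLinearMap_injective (lext fun g => by
    simp [D_dl, map_sum, tmul_ite, eq_inv_mul_iff_mul_eq]))

lemma comul_dl (g : G) : comul (R := k) (dl g : Fn k G) = ∑ x, dl x ⊗ₜ[k] dl (x⁻¹ * g) := D_dl g
lemma counit_eq (f : Fn k G) : counit (R := k) f = ev 1 f := rfl

def Sl : Fn k G →ₗ[k] Fn k G := LinearMap.funLeft k k fun x : G => x⁻¹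

omit [Fintype G] in
lemma Sl_dl (g : G) : Sl (dl g : Fn k G) = dl g⁻¹ := fext fun x => by
  change ev x⁻¹ (dl g) = _
  simp [inv_eq_iff_eq_inv]

noncomputable instance : HopfAlgebra k (Fn k G) where
  antipode := Sl
  mul_antipode_rTensor_comul := lext fun g => by
    by_cases h : g = 1
    · simp [comul_dl, counit_eq, map_sum, Sl_dl, dl_mul, h, ← sum_dl1]
      simpa using Equiv.sum_comp (Equiv.inv G) (fun x => (dl x : Fn k G))
    · simp [comul_dl, counit_eq, map_sum, Sl_dl, dl_mul, h, Ne.symm h]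
  mul_antipode_lTensor_comul := lext fun g => by
    by_cases h : g = 1
    · simp [comul_dl, counit_eq, map_sum, Sl_dl, dl_mul, h, ← sum_dl1]
    · simp [comul_dl, counit_eq, map_sum, Sl_dl, dl_mul, h, Ne.symm h]

lemma S_dl (g : G) : HopfAlgebra.antipode k (dl g : Fn k G) = dl g⁻¹ := Sl_dl g

instance : IsSemisimpleRing (Fn k G) := inferInstanceAs (IsSemisimpleRing (G → k))

end fn

section main
variable {k G Γ : Type} [Field k] [Group G] [Fintype G] [DecidableEq G] [Group Γ] [Fintype Γ]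
  [DecidableEq Γ]

def L (s : Γ) : Module.End k (Γ → k) := LinearMap.funLeft k k fun x => s⁻¹ * x

omit [Fintype Γ] [DecidableEq Γ] in
@[simp] lemma L_apply (s : Γ) (f : Γ → k) (x : Γ) : L s f x = f (s⁻¹ * x) := rfl

omit [Fintype Γ] [DecidableEq Γ] in
lemma L_mul (s t : Γ) : (L (s * t) : Module.End k (Γ → k)) = L s * L t := by
  ext f x; simp [mul_assoc]

omit [Fintype Γ] [DecidableEq Γ] in
lemma L_one : (L 1 : Module.End k (Γ → k)) = 1 := by ext f x; simp

noncomputable def rho (q : Γ →* G) : Fn k G →ₐ[k] Module.End k (Γ → k) :=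
  (Algebra.lmul k (Γ → k)).comp (AlgHom.pi fun u => ev (q u))

omit [Fintype Γ] [DecidableEq Γ] [Fintype G] [DecidableEq G] in
@[simp] lemma rho_apply (q : Γ →* G) (φ : Fn k G) (f : Γ → k) (x : Γ) :
    rho q φ f x = ev (q x) φ * f x := rfl

noncomputable def T (S : Finset Γ) : Module.End k (Γ → k) := ∑ s ∈ S, L s

omit [Fintype Γ] [DecidableEq Γ] in
lemma T_apply (S : Finset Γ) (f : Γ → k) (x : Γ) : T S f x = ∑ s ∈ S, f (s⁻¹ * x) := by
  simp [T, LinearMap.sum_apply, Finset.sum_apply]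

omit [Fintype Γ] [DecidableEq Γ] in
lemma T_comm (S : Finset Γ) (hS : ∀ g, ∀ s ∈ S, g * s * g⁻¹ ∈ S) (g : Γ) :
    (T S : Module.End k (Γ → k)) * L g = L g * T S := by
  simp only [T, Finset.sum_mul, Finset.mul_sum, ← L_mul]
  refine Finset.sum_bij' (fun s _ => g⁻¹ * s * g⁻¹⁻¹) (fun s _ => g * s * g⁻¹)
    (fun s hs => hS _ s hs) (fun s hs => hS _ s hs) (fun s _ => by group) (fun s _ => by group)
    fun s _ => by congr 1; group

omit [Fintype Γ] [DecidableEq Γ] in
lemma Th_eq (q : Γ →* G) (S : Finset Γ) (c : Fn k G) :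
    Th (rho q) (T S) (comul c) = ∑ s ∈ S, ev (q s) c • L s := by
  have : Th (k := k) (rho q) (T S) ∘ₗ comul =
      ∑ s ∈ S, (ev (q s)).toLinearMap.smulRight (L s) := by
    refine lext fun g => ?_
    ext1 f
    funext u
    simp only [LinearMap.comp_apply, comul_dl, map_sum, Th, mm_tmul, S_dl, LinearMap.sum_apply,
      Finset.sum_apply, Module.End.mul_apply, LinearMap.mulRight_apply, AlgHom.toLinearMap_apply,
      rho_apply, ev_dl, T_apply, LinearMap.smulRight_apply, LinearMap.smul_apply, Pi.smul_apply,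
      L_apply, smul_eq_mul, ite_mul, one_mul, zero_mul, Finset.sum_ite_eq, Finset.mem_univ, if_true]
    refine Finset.sum_congr rfl fun s _ => ?_
    congr 1
    simp [map_mul, eq_comm]
  simpa [LinearMap.sum_apply] using LinearMap.congr_fun this c

lemma T_sq (S : Finset Γ)
    (hc : ∀ g, ((S.filter fun s => s⁻¹ * g ∈ S).card : k) = if g ∈ S then 1 else 0) :
    (T S : Module.End k (Γ → k)) * T S = T S := by
  have h1 : ∀ s : Γ, (L s : Module.End k (Γ → k)) * T S =
      ∑ g, if s⁻¹ * g ∈ S then L g else 0 := fun s => by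
    rw [← Equiv.sum_comp (Equiv.mulLeft s)]
    simp [T, Finset.mul_sum, L_mul]
  conv_lhs => rw [T, Finset.sum_mul]
  change ∑ s ∈ S, L s * T S = _
  simp only [h1]
  rw [Finset.sum_comm]
  have : ∀ g, (∑ s ∈ S, if s⁻¹ * g ∈ S then (L g : Module.End k (Γ → k)) else 0) =
      if g ∈ S then L g else 0 := fun g => by
    rw [← Finset.sum_filter, Finset.sum_const, ← Nat.cast_smul_eq_nsmul k, hc]
    split_ifs <;> simp
  simp [this, T]

omit [Fintype Γ] [DecidableEq Γ] [Fintype G] in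
lemma L_rho (q : Γ →* G) (S : Finset Γ) (hq : ∀ s ∈ S, ∀ t ∈ S, q s = q t → s = t) (s : Γ)
    (hs : s ∈ S) (g : G) (m : Γ → k) :
    L s (rho q (dl g) m) = rho q (dl (q s * g)) (T S (rho q (dl g) m)) := by
  funext u
  simp only [L_apply, rho_apply, ev_dl, T_apply, map_mul, map_inv, inv_mul_eq_iff_eq_mul]
  split_ifs with h
  · rw [Finset.sum_eq_single_of_mem s hs, if_pos h, one_mul, one_mul]
    intro t ht hts
    rw [if_neg, zero_mul]
    intro h'
    exact hts (hq t ht s hs (mul_right_cancel (h'.symm.trans h)))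
  · simp

theorem main [CharP k 2] (q : Γ →* G) (S : Finset Γ) (z : Γ) (hz : q z = 1) (hz1 : z ≠ 1)
    (hzz : z * z = 1) (hS : ∀ g, ∀ s ∈ S, g * s * g⁻¹ ∈ S)
    (hc : ∀ g, ((S.filter fun s => s⁻¹ * g ∈ S).card : k) = if g ∈ S then 1 else 0)
    (hq : ∀ s ∈ S, ∀ t ∈ S, q s = q t → s = t) (hne : S.Nonempty)
    (hgen : z ∈ Submonoid.closure (S : Set Γ)) : ¬ IsSemisimpleRing (Hpar k (Fn k G)) := by
  intro hss
  have he := T_sq (k := k) S hc
  have hTT : ∀ m : Γ → k, T S (T S m) = T S m := fun m => LinearMap.congr_fun he m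
  obtain ⟨Ψ, h1, h2⟩ := exists_hom (rho (k := k) q) (ev 1) he fun c => by
    simp only [Th_eq, Finset.mul_sum, Finset.sum_mul, mul_smul_comm, smul_mul_assoc, T_comm S hS]
  have hp : ∀ φ m, T S (pi (rho (k := k) q) (ev 1) (T S) φ m) = T S (rho q φ (T S m)) :=
    fun φ m => by simp [pi, hTT]
  have hTz : ∀ m : Γ → k, T S (L z m) = L z (T S m) := fun m =>
    LinearMap.congr_fun (T_comm S hS z) m
  have hrz : ∀ φ (m : Γ → k), rho q φ (L z m) = L z (rho q φ m) := fun φ m => by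
    funext u; simp [hz]
  let U0 : Submodule k (Γ → k) := (LinearMap.range (1 + L z)).comap (T S)
  let DD : Subalgebra k (Module.End k (Γ → k)) :=
    { carrier := {φ | ∀ m ∈ U0, φ m ∈ U0}
      mul_mem' := fun ha hb m hm => ha _ (hb m hm)
      add_mem' := fun ha hb m hm => add_mem (ha m hm) (hb m hm)
      algebraMap_mem' := fun r m hm => U0.smul_mem r hm }
  have hD : ∀ a, Ψ a ∈ DD := h2 DD fun φ m hm => by
    obtain ⟨n, hn⟩ := hm
    refine ⟨T S (rho q φ n), ?_⟩
    rw [hp, ← hn]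
    simp [hrz, hTz]
  let : Module (Hpar k (Fn k G)) (Γ → k) := Module.compHom _ Ψ.toRingHom
  let U : Submodule (Hpar k (Fn k G)) (Γ → k) :=
    { carrier := U0
      add_mem' := fun ha hb => add_mem ha hb
      zero_mem' := zero_mem _
      smul_mem' := fun a m hm => hD a m hm }
  obtain ⟨W, hW⟩ := exists_isCompl U
  have hWk : ∀ (c : k), ∀ w ∈ W, c • w ∈ W := fun c w hw => by
    have := W.smul_mem (algebraMap k _ c) hw
    change Ψ (algebraMap k _ c) w ∈ W at this
    rwa [AlgHom.commutes] at this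
  let N : Submodule k (Γ → k) := Submodule.span k {n | ∃ g, ∃ w ∈ W, n = rho q (dl g) (T S w)}
  have hg : ∀ φ, ∀ w ∈ W, ∃ w' ∈ W, T S (rho q φ (T S w)) = T S w' := fun φ w hw => by
    obtain ⟨a, ha⟩ := h1 φ
    refine ⟨a • w, W.smul_mem a hw, ?_⟩
    change _ = T S (Ψ a w)
    rw [ha, hp]
  have hN1 : ∀ n ∈ N, ∃ w ∈ W, T S n = T S w := fun n hn => by
    induction hn using Submodule.span_induction with
    | mem x hx => obtain ⟨g, w, hw, rfl⟩ := hx; exact hg _ w hw
    | zero => exact ⟨0, zero_mem _, rfl⟩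
    | add x y _ _ hx hy =>
      obtain ⟨a, ha, hx⟩ := hx
      obtain ⟨b, hb, hy⟩ := hy
      exact ⟨a + b, add_mem ha hb, by rw [map_add, map_add, hx, hy]⟩
    | smul c x _ hx =>
      obtain ⟨a, ha, hx⟩ := hx
      exact ⟨c • a, hWk c a ha, by rw [map_smul, map_smul, hx]⟩
  have hN2 : ∀ w ∈ W, T S w ∈ N := fun w hw => by
    have : T S w = ∑ g, rho q (dl g) (T S w) := by
      rw [← LinearMap.sum_apply, ← map_sum, sum_dl1, map_one]; rfl
    rw [this]
    exact Submodule.sum_mem _ fun g _ => Submodule.subset_span ⟨g, w, hw, rfl⟩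
  have hN3 : ∀ s ∈ S, ∀ n ∈ N, L s n ∈ N := fun s hs n hn => by
    induction hn using Submodule.span_induction with
    | mem x hx =>
      obtain ⟨g, w, hw, rfl⟩ := hx
      obtain ⟨w', hw', h⟩ := hg (dl g) w hw
      rw [L_rho q S hq s hs, h]
      exact Submodule.subset_span ⟨_, w', hw', rfl⟩
    | zero => simp
    | add x y _ _ hx hy => rw [map_add]; exact add_mem hx hy
    | smul c x _ hx => rw [map_smul]; exact N.smul_mem c hx
  have hN4 : ∀ n ∈ N, L z n ∈ N := by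
    refine Submonoid.closure_induction (motive := fun u _ => ∀ n ∈ N, L u n ∈ N) hN3 ?_ ?_ hgen
    · intro n hn; rwa [L_one]
    · intro a b _ _ ha hb n hn; rw [L_mul]; exact ha _ (hb n hn)
  have hkill : ∀ w ∈ W, T S w + L z (T S w) = 0 := fun w hw => by
    obtain ⟨w', hw', h⟩ := hN1 _ (add_mem (hN2 w hw) (hN4 _ (hN2 w hw)))
    rw [map_add, hTz, hTT] at h
    have : w' ∈ U := ⟨T S w, h⟩
    rw [h, Submodule.disjoint_def.1 hW.disjoint w' this hw', map_zero]
  have hall : ∀ m : Γ → k, T S m + L z (T S m) = 0 := fun m => by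
    obtain ⟨u, ⟨n, hn⟩, w, hw, rfl⟩ := Submodule.mem_sup.1 (hW.sup_eq_top ▸ trivial : m ∈ U ⊔ W)
    have h3 : L z (L z n) = n := by
      rw [← Module.End.mul_apply, ← L_mul, hzz, L_one]; rfl
    have h4 : T S u = n + L z n := hn.symm
    rw [map_add, map_add, h4, map_add, h3]
    have h5 := hkill w hw
    have h6 : ∀ v : Γ → k, v + v = 0 := fun v => funext fun x => CharTwo.add_self_eq_zero _
    linear_combination h5 + h6 n + h6 (L z n)
  obtain ⟨s, hs⟩ := hne
  have := congrFun (hall (Pi.single 1 1)) s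
  have h7 : z⁻¹ * s ∉ S := fun h => hz1 (by simpa using hq _ h s hs (by simp [hz]))
  simp [T_apply, Pi.single_apply, inv_mul_eq_one, hs, h7] at this

end main

/-- `SL₂(𝔽₅)` as quadruples. -/
def Q : Type := {x : ZMod 5 × ZMod 5 × ZMod 5 × ZMod 5 // x.1 * x.2.2.2 - x.2.1 * x.2.2.1 = 1}

instance : DecidableEq Q := inferInstanceAs (DecidableEq {_x : ZMod 5 × ZMod 5 × ZMod 5 × ZMod 5 // _})
instance : Fintype Q := inferInstanceAs (Fintype {_x : ZMod 5 × ZMod 5 × ZMod 5 × ZMod 5 // _})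

instance : Mul Q := ⟨fun x y => ⟨(x.1.1 * y.1.1 + x.1.2.1 * y.1.2.2.1,
  x.1.1 * y.1.2.1 + x.1.2.1 * y.1.2.2.2, x.1.2.2.1 * y.1.1 + x.1.2.2.2 * y.1.2.2.1,
  x.1.2.2.1 * y.1.2.1 + x.1.2.2.2 * y.1.2.2.2), by
    have h1 := x.2; have h2 := y.2
    linear_combination (y.1.1 * y.1.2.2.2 - y.1.2.1 * y.1.2.2.1) * h1 + h2⟩⟩
instance : One Q := ⟨⟨(1, 0, 0, 1), by simp⟩⟩
instance : Inv Q := ⟨fun x => ⟨(x.1.2.2.2, -x.1.2.1, -x.1.2.2.1, x.1.1), by
    have h1 := x.2; linear_combination h1⟩⟩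

lemma mul_val (x y : Q) : (x * y).1 = (x.1.1 * y.1.1 + x.1.2.1 * y.1.2.2.1,
  x.1.1 * y.1.2.1 + x.1.2.1 * y.1.2.2.2, x.1.2.2.1 * y.1.1 + x.1.2.2.2 * y.1.2.2.1,
  x.1.2.2.1 * y.1.2.1 + x.1.2.2.2 * y.1.2.2.2) := rfl
lemma inv_val (x : Q) : (x⁻¹).1 = (x.1.2.2.2, -x.1.2.1, -x.1.2.2.1, x.1.1) := rfl
lemma one_val : (1 : Q).1 = (1, 0, 0, 1) := rfl

instance : Group Q := Group.ofLeftAxioms
  (fun x y z => Subtype.ext (by
    simp only [mul_val, Prod.mk.injEq]; refine ⟨?_, ?_, ?_, ?_⟩ <;> ring))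
  (fun x => Subtype.ext (by simp [mul_val, one_val]))
  (fun x => Subtype.ext (by
    have h1 := x.2
    simp only [mul_val, inv_val, one_val, Prod.mk.injEq]
    refine ⟨?_, ?_, ?_, ?_⟩ <;> first | linear_combination h1 | ring))

def P (x : Q) : Prop := x.1.1 + x.1.2.2.2 = 4 ∨ (x.1.1 + x.1.2.2.2 = 2 ∧ x ≠ 1)
instance : DecidablePred P := fun _ => inferInstanceAs (Decidable (_ ∨ _))
def SS : Finset Q := Finset.univ.filter P
def zz : Q := ⟨(4, 0, 0, 4), by decide⟩

lemma cnt : ∀ g : Q, (SS.filter fun s => P (s⁻¹ * g)).card % 2 = if P g then 1 else 0 := by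
  decide +kernel

lemma zc : ∀ g : Q, g * zz = zz * g ∧ (P g → ¬ P (g * zz)) := by decide +kernel

def aa : Q := ⟨(1, 1, 0, 1), by decide⟩
def bb : Q := ⟨(1, 0, 4, 1), by decide⟩
lemma ab : P aa ∧ P bb ∧ zz = aa * bb * aa * (aa * bb * aa) ∧ zz * zz = 1 ∧ zz ≠ 1 := by decide

theorem result : ∃ (k : Type) (_ : Field k) (H : Type) (_ : Ring H) (_ : HopfAlgebra k H),
    IsSemisimpleRing H ∧ ¬ IsSemisimpleRing (Hpar k H) := by
  classical
  have hzz : zz * zz = 1 := ab.2.2.2.1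
  let Z : Subgroup Q :=
    { carrier := {x | x = 1 ∨ x = zz}
      mul_mem' := by rintro _ _ (rfl | rfl) (rfl | rfl) <;> simp [hzz]
      one_mem' := Or.inl rfl
      inv_mem' := by rintro _ (rfl | rfl) <;> simp [inv_eq_of_mul_eq_one_right hzz] }
  have : Z.Normal := ⟨by
    rintro _ (rfl | rfl) g
    · exact Or.inl (by simp)
    · exact Or.inr (by rw [(zc g).1]; simp)⟩
  let : Fintype (Q ⧸ Z) := Fintype.ofFinite _
  have hm : ∀ x, x ∈ SS ↔ P x := fun x => by simp [SS]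
  refine ⟨ZMod 2, inferInstance, Fn (ZMod 2) (Q ⧸ Z), inferInstance, inferInstance, inferInstance,
    main (QuotientGroup.mk' Z) SS zz ((QuotientGroup.eq_one_iff _).2 (Or.inr rfl)) ab.2.2.2.2 hzz
      ?_ ?_ ?_ ⟨aa, (hm _).2 ab.1⟩ ?_⟩
  · intro g s hs
    rw [hm] at hs ⊢
    have h1 := g.2
    have ht : (g * s * g⁻¹).1.1 + (g * s * g⁻¹).1.2.2.2 = s.1.1 + s.1.2.2.2 := by
      simp only [mul_val, inv_val]
      linear_combination (s.1.1 + s.1.2.2.2) * h1
    unfold P at hs ⊢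
    rw [ht]
    refine hs.imp id fun h => ⟨h.1, fun h' => h.2 ?_⟩
    simpa using h'
  · intro g
    simp only [hm]
    rw [← ZMod.natCast_mod, cnt g]
    split_ifs <;> simp
  · intro s hs t ht h
    rcases QuotientGroup.eq.1 h with h | h
    · exact inv_mul_eq_one.1 h
    · exact absurd ((hm _).1 ht) (by rw [inv_mul_eq_iff_eq_mul.1 h]; exact (zc s).2 ((hm _).1 hs))
  · have ha : aa ∈ Submonoid.closure (SS : Set Q) := Submonoid.subset_closure ((hm _).2 ab.1)
    have hb : bb ∈ Submonoid.closure (SS : Set Q) := Submonoid.subset_closure ((hm _).2 ab.2.1)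
    have h := mul_mem (mul_mem ha hb) ha
    rw [ab.2.2.1]
    exact mul_mem h h

end Pool.Agent.Results.MP_57c94c_al.NotSemisimple
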